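import Pool.Agent.H2.NL.Targets2

/-! Board nil, row PFB (helper43). -/

set_option autoImplicit false

open Matrix Pool.Agent.H64.CC

namespace Pool.Agent.H43.NIL

open Pool.Agent.H2.NL

lemma pf_sum {K : Type} [Field K] {I J X : Type} [Fintype J] [Fintype X] (j : Matrix I J K)
    (w : List I) : ∀ (s : X → K) (t : X → List J → K),
    pf j (fun l => ∑ c, s c * t c l) w = ∑ c, s c * pf j (t c) w := by
  induction w with
  | nil => intro s t; rfl
  | cons a w ih =>
    intro s t
    show ∑ b, j a b * pf j (fun l => ∑ c, s c * t c (b :: l)) w =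
      ∑ c, s c * ∑ b, j a b * pf j (fun l => t c (b :: l)) w
    simp only [Finset.mul_sum]
    rw [Finset.sum_comm]
    refine Finset.sum_congr rfl fun b _ => ?_
    rw [ih s (fun c l => t c (b :: l)), Finset.mul_sum]
    refine Finset.sum_congr rfl fun c _ => ?_
    ring

lemma pf_comp {K : Type} [Field K] {I J M : Type} [Fintype J] [Fintype M] (i : Matrix I J K)
    (j : Matrix J M K) (w : List I) : ∀ t : List M → K, pf i (pf j t) w = pf (i * j) t w := by
  induction w with
  | nil => intro t; rfl
  | cons a w ih =>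
    intro t
    show ∑ b, i a b * pf i (fun l => ∑ c, j b c * pf j (fun l' => t (c :: l')) l) w =
      ∑ c, (i * j) a c * pf (i * j) (fun l' => t (c :: l')) w
    simp only [pf_sum, ih, Matrix.mul_apply, Finset.mul_sum, Finset.sum_mul]
    rw [Finset.sum_comm]
    refine Finset.sum_congr rfl fun c _ => Finset.sum_congr rfl fun b _ => ?_
    ring

lemma pf_one' {K : Type} [Field K] {M : Type} [Fintype M] [DecidableEq M] (w : List M) :
    ∀ t : List M → K, pf (1 : Matrix M M K) t w = t w := by
  induction w with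
  | nil => intro t; rfl
  | cons a w ih =>
    intro t
    show ∑ b, (1 : Matrix M M K) a b * pf (1 : Matrix M M K) (fun l => t (b :: l)) w = _
    simp only [ih, Matrix.one_apply, ite_mul, one_mul, zero_mul, Finset.sum_ite_eq,
      Finset.mem_univ, if_true]

/-- words of length `l + 1` -/
def cse (J : Type) (l : ℕ) : J × List.Vector J l ≃ List.Vector J (l + 1) where
  toFun p := p.1 ::ᵥ p.2
  invFun v := (v.head, v.tail)
  left_inv p := by simp
  right_inv v := by simp

lemma Jm_mul {K : Type} [Field K] {I J M : Type} [Fintype J] (i : Matrix I J K)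
    (j : Matrix J M K) (l : ℕ) : Jm i l * Jm j l = Jm (i * j) l := by
  induction l with
  | zero =>
    ext u w
    obtain ⟨u, hu⟩ := u
    obtain ⟨w, hw⟩ := w
    obtain rfl := List.length_eq_zero_iff.1 hu
    obtain rfl := List.length_eq_zero_iff.1 hw
    rw [Matrix.mul_apply]
    have : Unique (List.Vector J 0) := ⟨⟨List.Vector.nil⟩, fun v => List.Vector.eq_nil v⟩
    rw [Fintype.sum_unique]
    simp [Jm]
  | succ l ih =>
    ext u w
    obtain ⟨a, u, rfl⟩ : ∃ a u', u = a ::ᵥ u' := ⟨u.head, u.tail, by simp⟩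
    obtain ⟨c, w, rfl⟩ : ∃ a w', w = a ::ᵥ w' := ⟨w.head, w.tail, by simp⟩
    have h := congrFun (congrFun ih u) w
    rw [Matrix.mul_apply] at h ⊢
    rw [← (cse J l).sum_comp, Fintype.sum_prod_type]
    simp only [Jm, Matrix.of_apply] at h ⊢
    have e1 : ∀ (x : J) (v : List.Vector J l),
        (List.zipWith (fun a b => i a b) (a ::ᵥ u).1 (cse J l (x, v)).1).prod *
        (List.zipWith (fun a b => j a b) (cse J l (x, v)).1 (c ::ᵥ w).1).prod =
        (i a x * j x c) * ((List.zipWith (fun a b => i a b) u.1 v.1).prod *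
          (List.zipWith (fun a b => j a b) v.1 w.1).prod) := by
      intro x v
      obtain ⟨u, hu⟩ := u
      obtain ⟨v, hv⟩ := v
      obtain ⟨w, hw⟩ := w
      simp only [cse, Equiv.coe_fn_mk, List.Vector.cons, List.zipWith_cons_cons, List.prod_cons]
      ring
    simp only [e1, ← Finset.mul_sum, h]
    obtain ⟨u, hu⟩ := u
    obtain ⟨w, hw⟩ := w
    simp only [List.Vector.cons, List.zipWith_cons_cons, List.prod_cons, Matrix.mul_apply,
      Finset.sum_mul]

lemma Jm_one {K : Type} [Field K] {M : Type} [DecidableEq M] (l : ℕ) :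
    Jm (1 : Matrix M M K) l = 1 := by
  induction l with
  | zero =>
    ext u w
    rw [Matrix.one_apply, if_pos ((List.Vector.eq_nil u).trans (List.Vector.eq_nil w).symm),
      List.Vector.eq_nil u, List.Vector.eq_nil w]
    simp [Jm, List.Vector.nil]
  | succ l ih =>
    ext u w
    obtain ⟨a, u, rfl⟩ : ∃ a u', u = a ::ᵥ u' := ⟨u.head, u.tail, by simp⟩
    obtain ⟨c, w, rfl⟩ : ∃ a w', w = a ::ᵥ w' := ⟨w.head, w.tail, by simp⟩
    have h := congrFun (congrFun ih u) w
    rw [Matrix.one_apply] at h ⊢
    have e : (a ::ᵥ u = c ::ᵥ w) ↔ (a = c ∧ u = w) := by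
      constructor
      · intro h
        have h1 := congrArg List.Vector.head h
        have h2 := congrArg List.Vector.tail h
        simp only [List.Vector.head_cons, List.Vector.tail_cons] at h1 h2
        exact ⟨h1, h2⟩
      · rintro ⟨rfl, rfl⟩
        rfl
    have e2 : Jm (1 : Matrix M M K) (l + 1) (a ::ᵥ u) (c ::ᵥ w) =
        (1 : Matrix M M K) a c * Jm (1 : Matrix M M K) l u w := by
      obtain ⟨u, hu⟩ := u
      obtain ⟨w, hw⟩ := w
      simp only [Jm, Matrix.of_apply, List.Vector.cons, List.zipWith_cons_cons, List.prod_cons]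
    rw [e2, h, Matrix.one_apply]
    by_cases h1 : a = c
    · by_cases h2 : u = w
      · rw [if_pos h1, if_pos h2, if_pos (e.2 ⟨h1, h2⟩), mul_one]
      · rw [if_neg h2, if_neg (fun h => h2 (e.1 h).2), mul_zero]
    · rw [if_neg h1, if_neg (fun h => h1 (e.1 h).1), zero_mul]

theorem pf_PFB : T_PFB := by
  intro K _ I J M _ _ _ _ _ _ i j
  exact ⟨fun t => funext fun w => pf_comp i j w t, fun t => funext fun w => pf_one' w t,
    fun l => Jm_mul i j l, fun l => Jm_one l⟩

end Pool.Agent.H43.NIL
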